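import Pool.Agent.KS6_44.TK.Color

set_option autoImplicit false

/-!
# Toric g-vectors of simple polytopes: ratio inequality and coloured Kruskal-Katona inequality

If the gamma-vector of a simple `d`-polytope is nonnegative, then its toric g-vector satisfies
`4 k (k + 1) g_{k+1} ≤ (d - 2k) (d - 2k + 2) g_k` for `k ≥ 1` (for even `d` the factor
`(d - 2k) (d - 2k + 2) / (4 k (k + 1))` is the ratio of the Narayana numbers `N(d/2, k+1)` and
`N(d/2, k)`). With the lower bound `k g_k ≥ binom(d, k-1) binom(d-k-1, k-1) 2^(d-2k)` this gives the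
inequality `(g_{k+1} / binom(m, k+1))^(1/(k+1)) ≤ (g_k / binom(m, k))^(1/k)`, `m = ⌊d/2⌋`, of
`m`-coloured complexes, and a form of the Kruskal-Katona inequality which uses only the first term of
the cascade of `g_k`.

The proof of the ratio inequality. The coefficient of `γ_{j+1}` in `g_{k+1}` is the coefficient of
`x^k` in the mean `T` of `A^j B^n`, `A = 1 + x + b`, `B = 2 + b`, `n = d - 2j - 2`, where `b` is `√x`
times a semicircular variable. With `M = 2 j + n` and `U` the mean of `b A^j B^n` one has the identity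
`(k + 2) U_{k+1} = (M - 2k) T_k` and the inequality `4 (k + 1) T_{k+1} ≤ (M - 2k + 2) U_{k+1}`
(integration by parts); see `Pool.Agent.KS6_44.TK.Sharp`.
-/

namespace Pool.Agent.Results.MP_41b5b1_co.RatioInequality

open Finset Polynomial

/-- Euclidean space of dimension `d`. -/
abbrev E (d : ℕ) : Type := EuclideanSpace ℝ (Fin d)

variable {d : ℕ}

/-- `F` is a face of the polytope `P`: an exposed face; the empty set and `P` are faces. -/
def IsFace (P F : Set (E d)) : Prop := IsExposed ℝ P F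

open Classical in
/-- The rank of a face: its dimension plus one, zero for the empty face. -/
noncomputable def rank (F : Set (E d)) : ℕ :=
  if F = ∅ then 0 else Module.finrank ℝ (affineSpan ℝ F).direction + 1

/-- `P` is a simple `d`-polytope in `ℝ^d`: the convex hull of a finite set, of dimension `d`, and every
vertex of `P` lies on exactly `d` edges (faces of dimension one) of `P`. -/
def IsSimplePolytope (P : Set (E d)) : Prop :=
  (∃ S : Finset (E d), P = convexHull ℝ (S : Set (E d))) ∧ affineSpan ℝ P = ⊤ ∧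
    ∀ x, IsFace P {x} → {F | IsFace P F ∧ rank F = 2 ∧ x ∈ F}.ncard = d

/-- `f_i`: the number of `i`-dimensional faces. -/
noncomputable def faceNumber (P : Set (E d)) (i : ℕ) : ℕ := {F | IsFace P F ∧ rank F = i + 1}.ncard

/-- The h-polynomial `Σ f_i (t - 1)^i`. -/
noncomputable def hPoly (P : Set (E d)) : ℤ[X] :=
  ∑ i ∈ range (d + 1), C (faceNumber P i : ℤ) * (X - 1) ^ i

/-- `γ` is the gamma-vector of `P`: the h-polynomial is `Σ γ_j t^j (1 + t)^(d - 2j)`, where `j` runs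
from zero to `d / 2`. -/
def IsGammaVector (P : Set (E d)) (γ : ℕ → ℤ) : Prop :=
  hPoly P = ∑ j ∈ range (d / 2 + 1), C (γ j) * (X ^ j * (1 + X) ^ (d - 2 * j))

/-- The polynomial `f(Q, x)`: the sum of `g(F) (x - 1)^(dim Q - 1 - dim F)` over all faces `F` of `P`
which are properly contained in the face `Q`. -/
noncomputable def toricF (P : Set (E d)) (g : Set (E d) → ℤ[X]) (Q : Set (E d)) : ℤ[X] :=
  ∑ᶠ F ∈ {F | IsFace P F ∧ F ⊂ Q}, g F * (X - 1) ^ (rank Q - 1 - rank F)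

/-- From `Σ k_i x^i` to the sum of `(k_i - k_{i-1}) x^i` for `i` from zero to `e / 2`. -/
noncomputable def truncate (e : ℕ) (f : ℤ[X]) : ℤ[X] :=
  ∑ i ∈ range (e / 2 + 1), C (f.coeff i - if i = 0 then 0 else f.coeff (i - 1)) * X ^ i

/-- `g` assigns to every face of `P` its toric g-polynomial: `g(∅) = 1`, and `g(Q)` is the truncation
of `f(Q)` for every nonempty face `Q` of `P`. -/
def IsToricG (P : Set (E d)) (g : Set (E d) → ℤ[X]) : Prop :=
  g ∅ = 1 ∧ ∀ Q, IsFace P Q → Q.Nonempty → g Q = truncate (rank Q - 1) (toricF P g Q)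

/-- `a` is the sum of the binomial coefficients `(n_i choose i)` for `i` from `j` to `k`, where
`n_k > ... > n_j ≥ j ≥ 1`. -/
def IsCascade (k a j : ℕ) (n : ℕ → ℕ) : Prop :=
  1 ≤ j ∧ j ≤ k ∧ j ≤ n j ∧ (∀ i, j ≤ i → i < k → n i < n (i + 1)) ∧
    a = ∑ i ∈ Icc j k, (n i).choose i

/-- `b` is the number `a^⟨k⟩`. -/
def IsUpper (k a b : ℕ) : Prop :=
  (a = 0 ∧ b = 0) ∨ ∃ j n, IsCascade k a j n ∧ b = ∑ i ∈ Icc j k, (n i).choose (i + 1)

/-- The vector `(v_0, ..., v_m)` satisfies the Kruskal-Katona inequalities. -/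
def KruskalKatona (m : ℕ) (v : ℕ → ℤ) : Prop :=
  v 0 = 1 ∧ (∀ i, i ≤ m → 0 ≤ v i) ∧
    ∀ k, 1 ≤ k → k + 1 ≤ m → ∃ a b : ℕ, v k = a ∧ IsUpper k a b ∧ v (k + 1) ≤ b

/-- For every simple `d`-polytope `P`, `d ≥ 1`: the gamma-vector and the toric g-polynomials exist,
and if the gamma-vector is nonnegative, then the toric g-vector `(g_k)` satisfies the
Kruskal-Katona inequalities and, for all `1 ≤ k`, `k + 1 ≤ d / 2`,
* `4 k (k + 1) g_{k+1} ≤ (d - 2k) (d - 2k + 2) g_k`;
* `(g_{k+1} / binom(m, k+1))^k ≤ (g_k / binom(m, k))^(k+1)` for `m = ⌊d/2⌋`, without denominators;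
* `g_{k+1} ≤ binom(n, k+1)` whenever `g_k < binom(n+1, k)`. -/
theorem result : ∀ d : ℕ, 1 ≤ d → ∀ P : Set (E d), IsSimplePolytope P →
    (∃ γ, IsGammaVector P γ) ∧ (∃ g, IsToricG P g) ∧
      ∀ γ g, IsGammaVector P γ → IsToricG P g → (∀ j, j ≤ d / 2 → 0 ≤ γ j) →
        KruskalKatona (d / 2) (fun i => (g P).coeff i) ∧
        ∀ k : ℕ, 1 ≤ k → k + 1 ≤ d / 2 →
          4 * (k : ℤ) * (k + 1) * (g P).coeff (k + 1) ≤
            ((d : ℤ) - 2 * k) * (d - 2 * k + 2) * (g P).coeff k ∧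
          (g P).coeff (k + 1) ^ k * ((d / 2).choose k : ℤ) ^ (k + 1) ≤
            (g P).coeff k ^ (k + 1) * ((d / 2).choose (k + 1) : ℤ) ^ k ∧
          ∀ n : ℕ, (g P).coeff k < (((n + 1).choose k : ℕ) : ℤ) →
            (g P).coeff (k + 1) ≤ ((n.choose (k + 1) : ℕ) : ℤ) := by
  classical
  intro d _ P hP
  obtain ⟨⟨S, rfl⟩, hspan, hsimple⟩ := hP
  have hspan' : affineSpan ℝ (S : Set (E d)) = ⊤ := by
    rw [affineSpan_convexHull] at hspan
    exact hspan
  obtain ⟨K, hK⟩ := Pool.Agent.Helper715.exists_CP S hspan'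
  set P : Set (E d) := convexHull ℝ (S : Set (E d)) with hPdef
  have hrk : ∀ F : Set (E d), rank F = Pool.Agent.Q142.TG.rk F := fun F => rfl
  have hsimple' : ∀ x : Pool.Agent.H63R3.Sep.Node S,
      {F | Pool.Agent.H63R3.Sep.IsEdge S F ∧ x.1 ∈ F}.ncard = d := by
    intro x
    refine Eq.trans (congrArg Set.ncard ?_) (hsimple x.1 x.2)
    ext F
    constructor
    · rintro ⟨⟨h1, h2⟩, h3⟩
      have hne : F.Nonempty := ⟨_, h3⟩
      refine ⟨h1, ?_, h3⟩
      rw [hrk, Pool.Agent.Q142.TG.rk_ne hne, h2]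
    · rintro ⟨h1, h2, h3⟩
      have hne : F.Nonempty := ⟨_, h3⟩
      rw [hrk, Pool.Agent.Q142.TG.rk_ne hne] at h2
      exact ⟨⟨h1, by omega⟩, h3⟩
  have hS := Pool.Agent.Q142.TG.sys_poly hK hsimple'
  set L := Pool.Agent.Q142.TG.LL K S with hL
  have hmem : ∀ F : Set (E d), F ∈ L ↔ IsFace P F := fun F => Pool.Agent.Q142.TG.mem_LL hK
  have hPmem : P ∈ L := by
    rw [hmem]
    intro _
    refine ⟨0, ?_⟩
    ext x
    simp
  have hPne : P.Nonempty := by
    rw [Set.nonempty_iff_ne_empty]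
    intro h
    rw [h, AffineSubspace.span_empty] at hspan
    exact bot_ne_top hspan
  have hPrk : Pool.Agent.Q142.TG.rk P = d + 1 := by
    rw [Pool.Agent.Q142.TG.rk_ne hPne, hspan, AffineSubspace.direction_top, finrank_top]
    simp
  -- the face numbers
  have hface : ∀ i, faceNumber P i =
      (L.filter fun x => x ≤ P ∧ Pool.Agent.Q142.TG.rk x = i + 1).card := by
    intro i
    unfold faceNumber
    rw [← Set.ncard_coe_finset]
    congr 1
    ext F
    rw [mem_coe, mem_filter, hmem]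
    constructor
    · rintro ⟨h1, h2⟩
      exact ⟨h1, IsExposed.subset h1, h2⟩
    · rintro ⟨h1, _, h2⟩
      exact ⟨h1, h2⟩
  have hpoly : hPoly P = ∑ i ∈ range (d + 1),
      C (((L.filter fun x => x ≤ P ∧ Pool.Agent.Q142.TG.rk x = i + 1).card : ℕ) : ℤ) *
        ((X : ℤ[X]) - 1) ^ i := by
    unfold hPoly
    exact sum_congr rfl fun i _ => by rw [hface i]
  -- the recursion
  have hsum : ∀ (g : Set (E d) → ℤ[X]) (Q : Set (E d)), toricF P g Q =
      ∑ x ∈ L.filter (fun x => x < Q), g x * (X - 1) ^ (rank Q - 1 - rank x) := by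
    intro g Q
    unfold toricF
    rw [← finsum_mem_coe_finset]
    congr 1
    ext F
    congr 1
    ext p
    rw [mem_coe, mem_filter, hmem]
    rfl
  have hrec : ∀ g : Set (E d) → ℤ[X], IsToricG P g ↔ ((∀ y ∈ L, Pool.Agent.Q142.TG.rk y = 0 → g y = 1) ∧
      ∀ y ∈ L, Pool.Agent.Q142.TG.rk y ≠ 0 → g y = Pool.Agent.Q142.TG.trunc (Pool.Agent.Q142.TG.rk y - 1)
        (∑ x ∈ L.filter (fun x => x < y), g x *
          (X - 1) ^ (Pool.Agent.Q142.TG.rk y - 1 - Pool.Agent.Q142.TG.rk x))) := by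
    intro g
    have h0 : ∀ y : Set (E d), Pool.Agent.Q142.TG.rk y = 0 ↔ y = ∅ := by
      intro y
      constructor
      · intro h
        rcases y.eq_empty_or_nonempty with h1 | h1
        · exact h1
        · rw [Pool.Agent.Q142.TG.rk_ne h1] at h
          omega
      · rintro rfl
        exact Pool.Agent.Q142.TG.rk_empty
    constructor
    · rintro ⟨h1, h2⟩
      refine ⟨fun y _ hy => by rw [(h0 y).1 hy]; exact h1, fun y hy hr => ?_⟩
      have h3 := h2 y ((hmem y).1 hy) (Set.nonempty_iff_ne_empty.2 fun h => hr ((h0 y).2 h))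
      rw [hsum] at h3
      exact h3
    · rintro ⟨h1, h2⟩
      refine ⟨h1 ∅ ((hmem ∅).2 fun h => absurd h Set.not_nonempty_empty) ((h0 ∅).2 rfl),
        fun Q hQ hne => ?_⟩
      have h3 := h2 Q ((hmem Q).2 hQ) (fun h => hne.ne_empty ((h0 Q).1 h))
      rw [hsum]
      exact h3
  have hmain : ∀ γ g, IsGammaVector P γ → IsToricG P g → (∀ j, j ≤ d / 2 → 0 ≤ γ j) →
      KruskalKatona (d / 2) fun i => (g P).coeff i := by
    intro γ g hγ hg hpos
    obtain ⟨h1, h2⟩ := (hrec g).1 hg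
    unfold IsGammaVector at hγ
    rw [hpoly] at hγ
    obtain ⟨h3, h4, h5⟩ := hS.kk h1 h2 hPmem hPrk γ hγ hpos
    refine ⟨h3, fun i _ => h4 i, fun k hk hk' => ?_⟩
    obtain ⟨a, ha, j, n, hc, hle⟩ := h5 k hk hk'
    exact ⟨a, _, ha, Or.inr ⟨j, n, hc, rfl⟩, hle⟩
  refine ⟨?_, ?_, fun γ g hγ hg hpos => ⟨hmain γ g hγ hg hpos, ?_⟩⟩
  · obtain ⟨γ, hγ⟩ := hS.exists_gamma hPmem hPrk
    refine ⟨γ, ?_⟩
    unfold IsGammaVector
    rw [hpoly]
    exact hγ
  · obtain ⟨g, hg1, hg2⟩ := hS.exists_sol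
    exact ⟨g, (hrec g).2 ⟨fun y _ => hg1 y, hg2⟩⟩
  · obtain ⟨h1, h2⟩ := (hrec g).1 hg
    unfold IsGammaVector at hγ
    rw [hpoly] at hγ
    obtain ⟨h3, h4, h5⟩ := hS.kk h1 h2 hPmem hPrk γ hγ hpos
    obtain ⟨h6, h7⟩ := Pool.Agent.KS6_44.TK.strong_sharp hS h1 h2 hPmem hPrk γ hγ hpos
    intro k hk hkd
    obtain ⟨h8, h9⟩ := h7 k hk hkd
    exact ⟨h8, Pool.Agent.KS6_44.TK.color d k _ _ hk hkd (h4 k) (h4 (k + 1)) h8
      (h6 k hk (by omega)), h9⟩

end Pool.Agent.Results.MP_41b5b1_co.RatioInequality
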